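import Mathlib

/-!
# Narrow windows on the logarithmic scale contain products of powers

`β / α` is irrational: every window `[U, U + η)` contains a number `a α + b β` with `a ≥ 0` and `b`
in a given interval of bounded length; the same with congruence conditions on `a`, `b`.
-/

set_option autoImplicit false

namespace Pool.Agent.Helper51.MX

/-- For irrational `γ` the fractional parts of `b γ - c`, `b < L`, are `ε`-dense, uniformly in `c`. -/
theorem exists_fract_lt {γ : ℝ} (hγ : Irrational γ) {ε : ℝ} (hε : 0 < ε) :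
    ∃ L : ℕ, ∀ c : ℝ, ∃ b : ℕ, b < L ∧ Int.fract (b * γ - c) < ε := by
  obtain ⟨N, hN⟩ := exists_nat_gt (1 / ε)
  have hN0 : 0 < N := by
    have : (0 : ℝ) < N := lt_trans (by positivity) hN
    exact_mod_cast this
  obtain ⟨p, q, hq0, hqN, hpq⟩ := Real.exists_int_int_abs_mul_sub_le γ hN0
  lift q to ℕ using hq0.le
  have hq1 : 0 < q := by exact_mod_cast hq0
  have hδ : (q : ℝ) * γ - p ≠ 0 := by
    intro h
    apply hγ
    refine ⟨(p : ℚ) / (q : ℚ), ?_⟩
    push_cast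
    rw [div_eq_iff (by exact_mod_cast hq1.ne')]
    linarith
  have hsmall : |(q : ℝ) * γ - p| < ε := by
    have h1 : |(q : ℝ) * γ - p| ≤ 1 / ((N : ℝ) + 1) := by
      exact_mod_cast hpq
    refine lt_of_le_of_lt h1 ?_
    rw [div_lt_iff₀ (by positivity)]
    rw [div_lt_iff₀ hε] at hN
    nlinarith
  set δ := (q : ℝ) * γ - p with hδdef
  have hd : 0 < |δ| := abs_pos.mpr hδ
  obtain ⟨M, hM⟩ := exists_nat_gt (1 / |δ| + 1)
  refine ⟨q * M + 1, fun c => ?_⟩
  -- the fractional part of `k q γ - c` is that of `k δ - c`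
  have hfr : ∀ k : ℕ, Int.fract (((k * q : ℕ) : ℝ) * γ - c) = Int.fract ((k : ℝ) * δ - c) := by
    intro k
    have e : ((k * q : ℕ) : ℝ) * γ - c = ((k : ℝ) * δ - c) + ((k * p : ℤ) : ℝ) := by
      rw [hδdef]
      push_cast
      ring
    rw [e, Int.fract_add_intCast]
  have key : ∃ k : ℕ, (k : ℝ) < 1 / |δ| + 1 ∧ ∃ n : ℤ, 0 ≤ (k : ℝ) * δ - c - n ∧
      (k : ℝ) * δ - c - n < |δ| := by
    rcases lt_or_gt_of_ne hδ with hneg | hpos
    · -- negative steps
      have habs : |δ| = -δ := abs_of_neg hneg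
      have hd' : 0 < -δ := by linarith
      have hf0 := Int.fract_nonneg (-c)
      have hf1 := Int.fract_lt_one (-c)
      refine ⟨⌊Int.fract (-c) / (-δ)⌋₊, ?_, ⌊-c⌋, ?_, ?_⟩
      · have h1 := Nat.floor_le (div_nonneg hf0 hd'.le)
        have h2 : Int.fract (-c) / (-δ) ≤ 1 / |δ| := by
          rw [habs]
          exact div_le_div_of_nonneg_right hf1.le hd'.le
        linarith
      · have h1 := Nat.floor_le (div_nonneg hf0 hd'.le)
        rw [le_div_iff₀ hd'] at h1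
        have h3 : Int.fract (-c) = -c - ⌊-c⌋ := rfl
        linarith
      · have h1 := Nat.lt_floor_add_one (Int.fract (-c) / (-δ))
        rw [div_lt_iff₀ hd'] at h1
        have h3 : Int.fract (-c) = -c - ⌊-c⌋ := rfl
        rw [habs]
        linarith
    · have habs : |δ| = δ := abs_of_pos hpos
      have hn0 : 0 ≤ (⌈-c⌉ : ℝ) + c := by
        have := Int.le_ceil (-c)
        linarith
      have hn1 : (⌈-c⌉ : ℝ) + c < 1 := by
        have := Int.ceil_lt_add_one (-c)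
        linarith
      refine ⟨⌈((⌈-c⌉ : ℝ) + c) / δ⌉₊, ?_, ⌈-c⌉, ?_, ?_⟩
      · have h1 := Nat.ceil_lt_add_one (div_nonneg hn0 hpos.le)
        have h2 : ((⌈-c⌉ : ℝ) + c) / δ ≤ 1 / |δ| := by
          rw [habs]
          exact div_le_div_of_nonneg_right hn1.le hpos.le
        linarith
      · have h1 := Nat.le_ceil (((⌈-c⌉ : ℝ) + c) / δ)
        rw [div_le_iff₀ hpos] at h1
        linarith
      · have h1 := Nat.ceil_lt_add_one (div_nonneg hn0 hpos.le)
        have h2 : (⌈((⌈-c⌉ : ℝ) + c) / δ⌉₊ : ℝ) * δ < (((⌈-c⌉ : ℝ) + c) / δ + 1) * δ :=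
          mul_lt_mul_of_pos_right h1 hpos
        rw [add_mul, div_mul_cancel₀ _ hpos.ne', one_mul] at h2
        rw [habs]
        linarith
  obtain ⟨k, hk, n, h0, h1⟩ := key
  have hkM : k < M := by
    have : (k : ℝ) < M := by linarith
    exact_mod_cast this
  refine ⟨k * q, ?_, ?_⟩
  · have := Nat.mul_le_mul_left q hkM.le
    rw [mul_comm k q]
    omega
  · rw [hfr]
    have h2 : Int.fract ((k : ℝ) * δ - c) ≤ (k : ℝ) * δ - c - n := by
      have h3 : n ≤ ⌊(k : ℝ) * δ - c⌋ := Int.le_floor.mpr (by linarith)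
      have h4 : (n : ℝ) ≤ ⌊(k : ℝ) * δ - c⌋ := by exact_mod_cast h3
      have h5 : Int.fract ((k : ℝ) * δ - c) = (k : ℝ) * δ - c - ⌊(k : ℝ) * δ - c⌋ := rfl
      linarith
    linarith

/-- Every window `[U, U + η)` contains `a α + b β` with `a ≥ 0`, `b₀ ≤ b < b₀ + L`. -/
theorem exists_window {α β : ℝ} (hα : 0 < α) (hβ : 0 < β) (hir : Irrational (β / α)) {η : ℝ}
    (hη : 0 < η) : ∃ L : ℕ, ∀ (U : ℝ) (b₀ : ℕ), (b₀ + L) * β ≤ U →
      ∃ a b : ℕ, b₀ ≤ b ∧ b < b₀ + L ∧ U ≤ a * α + b * β ∧ a * α + b * β < U + η := by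
  obtain ⟨L, hL⟩ := exists_fract_lt hir (ε := η / α) (by positivity)
  refine ⟨L, fun U b₀ hU => ?_⟩
  obtain ⟨b', hb', hfr⟩ := hL (U / α - b₀ * (β / α))
  set b := b₀ + b' with hb
  set y := (U - b * β) / α with hy
  have hy0 : 0 ≤ y := by
    rw [hy]
    apply div_nonneg _ hα.le
    have h1 : (b : ℝ) ≤ b₀ + L := by
      rw [hb]
      push_cast
      have : (b' : ℝ) ≤ L := by exact_mod_cast hb'.le
      linarith
    have h2 : (b : ℝ) * β ≤ (b₀ + L) * β := mul_le_mul_of_nonneg_right h1 hβ.le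
    linarith
  have hyc : Int.fract (-y) < η / α := by
    have e : (b' : ℝ) * (β / α) - (U / α - b₀ * (β / α)) = -y := by
      rw [hy, hb]
      push_cast
      field_simp
      ring
    rw [← e]
    exact hfr
  refine ⟨⌈y⌉₊, b, by omega, by omega, ?_, ?_⟩
  · have h1 := Nat.le_ceil y
    have h2 : y * α ≤ (⌈y⌉₊ : ℝ) * α := mul_le_mul_of_nonneg_right h1 hα.le
    rw [hy, div_mul_cancel₀ _ hα.ne', ← hy] at h2
    linarith
  · have h1 : (⌈y⌉₊ : ℝ) - y < η / α := by
      have h3 : ((⌈y⌉₊ : ℤ) : ℝ) = (⌈y⌉ : ℝ) := by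
        rw [Int.natCast_ceil_eq_ceil hy0]
      have h4 : Int.fract (-y) = -y - ⌊-y⌋ := rfl
      rw [Int.floor_neg] at h4
      push_cast at h4 h3
      rw [h3]
      rw [h4] at hyc
      linarith
    have h2 : ((⌈y⌉₊ : ℝ) - y) * α < η / α * α := mul_lt_mul_of_pos_right h1 hα
    rw [div_mul_cancel₀ _ hα.ne', sub_mul] at h2
    have h5 : y * α = U - b * β := by rw [hy, div_mul_cancel₀ _ hα.ne']
    rw [h5] at h2
    linarith

/-- `log 3 / log 2` is irrational. -/
theorem irrational_log : Irrational (Real.log 3 / Real.log 2) := by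
  rintro ⟨q, hq⟩
  have h2 : 0 < Real.log 2 := Real.log_pos one_lt_two
  have h3 : 0 < Real.log 3 := Real.log_pos (by norm_num)
  have hq0 : 0 < (q : ℝ) := by
    rw [hq]
    positivity
  have hq0' : 0 < q := by exact_mod_cast hq0
  have hnum : 0 < q.num := Rat.num_pos.mpr hq0'
  obtain ⟨m, hm⟩ := Int.eq_ofNat_of_zero_le hnum.le
  have hm0 : 0 < m := by omega
  have hqe : (q : ℝ) = (m : ℝ) / (q.den : ℝ) := by
    have := Rat.cast_def (K := ℝ) q
    rw [this, hm]
    push_cast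
    rfl
  have hden : (0 : ℝ) < q.den := by exact_mod_cast q.den_pos
  rw [hqe, div_eq_div_iff hden.ne' h2.ne'] at hq
  -- `m log 2 = log 3 * den`
  have h4 : Real.log ((2 : ℝ) ^ m) = Real.log ((3 : ℝ) ^ q.den) := by
    rw [Real.log_pow, Real.log_pow]
    linarith
  have h5 : (2 : ℝ) ^ m = (3 : ℝ) ^ q.den :=
    Real.log_injOn_pos (by simp) (by simp) h4
  have h6 : (2 : ℕ) ^ m = 3 ^ q.den := by exact_mod_cast h5
  have h7 : Even ((2 : ℕ) ^ m) := (Nat.even_pow.mpr ⟨even_two, hm0.ne'⟩)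
  rw [h6] at h7
  have h8 : Odd ((3 : ℕ) ^ q.den) := Odd.pow (by decide)
  exact (Nat.not_even_iff_odd.mpr h8) h7

/-- the window lemma for `log 2`, `log 3` -/
theorem exists_window_log {η : ℝ} (hη : 0 < η) : ∃ L : ℕ, 0 < L ∧ ∀ (U : ℝ) (b₀ : ℕ),
    (b₀ + L) * Real.log 3 ≤ U → ∃ a b : ℕ, b₀ ≤ b ∧ b < b₀ + L ∧
      U ≤ a * Real.log 2 + b * Real.log 3 ∧ a * Real.log 2 + b * Real.log 3 < U + η := by
  obtain ⟨L, hL⟩ := exists_window (Real.log_pos one_lt_two) (Real.log_pos (by norm_num))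
    irrational_log hη
  refine ⟨L, ?_, hL⟩
  obtain ⟨a, b, h1, h2, -, -⟩ := hL ((0 + L) * Real.log 3) 0 (by simp)
  omega

/-- the window lemma with congruence conditions -/
theorem exists_window_mod {η : ℝ} (hη : 0 < η) (m : ℕ) (hm : 0 < m) : ∃ U₀ : ℝ, ∀ U : ℝ, U₀ ≤ U →
    ∀ ra rb : ℕ, ra < m → rb < m → ∃ a b : ℕ, a % m = ra ∧ b % m = rb ∧
      U ≤ a * Real.log 2 + b * Real.log 3 ∧ a * Real.log 2 + b * Real.log 3 < U + η := by
  have h2 : 0 < Real.log 2 := Real.log_pos one_lt_two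
  have h3 : 0 < Real.log 3 := Real.log_pos (by norm_num)
  have hm' : (0 : ℝ) < m := by exact_mod_cast hm
  have hir : Irrational (m * Real.log 3 / (m * Real.log 2)) := by
    rw [mul_div_mul_left _ _ hm'.ne']
    exact irrational_log
  obtain ⟨L, hL⟩ := exists_window (α := m * Real.log 2) (β := m * Real.log 3) (by positivity)
    (by positivity) hir hη
  refine ⟨L * (m * Real.log 3) + m * Real.log 2 + m * Real.log 3, fun U hU ra rb hra hrb => ?_⟩
  have hra' : (ra : ℝ) ≤ m := by exact_mod_cast hra.le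
  have hrb' : (rb : ℝ) ≤ m := by exact_mod_cast hrb.le
  obtain ⟨a, b, -, -, h4, h5⟩ := hL (U - ra * Real.log 2 - rb * Real.log 3) 0 (by
    push_cast
    have e1 := mul_le_mul_of_nonneg_right hra' h2.le
    have e2 := mul_le_mul_of_nonneg_right hrb' h3.le
    linarith)
  refine ⟨ra + m * a, rb + m * b, ?_, ?_, ?_, ?_⟩
  · rw [Nat.add_mul_mod_self_left, Nat.mod_eq_of_lt hra]
  · rw [Nat.add_mul_mod_self_left, Nat.mod_eq_of_lt hrb]
  · push_cast
    linarith
  · push_cast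
    linarith

end Pool.Agent.Helper51.MX
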